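import Pool.Agent.Q206.ISC.Enum
import Pool.Agent.Q206.DC.MeasAll

/-!
# Index sets for differences of two `Π⁰₁` classes

All cardinality properties and all measure properties; see the claim file.
-/

namespace Pool.Agent.Results.MP_02df5b_lc.AllSizeProperties

open Pool.Agent.Helper446.CB Pool.Agent.Q206.ISC Pool.Agent.Q206.DC
open Cardinal MeasureTheory

theorem result : (∃ π, EffEnum π) ∧ ∀ π, EffEnum π →
    -- cardinality, finite thresholds
    ((∀ c : ℕ, 1 ≤ c → Complete (Sig 2) (D π fun s => (c : Cardinal) ≤ #s) ∧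
      Complete (Pi 2) (D π fun s => #s < c) ∧ Complete Diff2 (D π fun s => #s = c)) ∧
    (∀ c : ℕ, Complete (Sig 2) (D π fun s => (c : Cardinal) < #s) ∧
      Complete (Pi 2) (D π fun s => #s ≤ c)) ∧
    Complete (Pi 2) (D π fun s => #s = 0)) ∧
    -- cardinality, infinite thresholds
    ((Complete (Sig 3) (D π fun s => #s < ℵ₀) ∧ Complete (Pi 3) (D π fun s => ℵ₀ ≤ #s)) ∧
    (Complete Pi11 (D π fun s => #s = ℵ₀) ∧ Complete Pi11 (D π fun s => #s ≤ ℵ₀) ∧
      Complete Sigma11 (D π fun s => ℵ₀ < #s)) ∧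
    (∀ κ : Cardinal, ℵ₀ < κ → κ < 𝔠 → (∀ n, ¬ D π (fun s => #s = κ) n) ∧
      Complete Sigma11 (D π fun s => κ ≤ #s) ∧ Complete Sigma11 (D π fun s => κ < #s) ∧
      Complete Pi11 (D π fun s => #s < κ) ∧ Complete Pi11 (D π fun s => #s ≤ κ)) ∧
    (Complete Sigma11 (D π fun s => #s = 𝔠) ∧ Complete Sigma11 (D π fun s => 𝔠 ≤ #s) ∧
      Complete Pi11 (D π fun s => #s < 𝔠))) ∧
    -- measure: thresholds which are the measure of some difference
    (∀ r : ℝ, (∃ n, D π (fun s => coin.real s = r) n) →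
      (r < 1 → Complete (Sig 2) (D π fun s => r < coin.real s) ∧
        Complete (Pi 2) (D π fun s => coin.real s ≤ r)) ∧
      (0 < r → Complete (Sig 2) (D π fun s => coin.real s < r) ∧
        Complete (Pi 2) (D π fun s => r ≤ coin.real s)) ∧
      Complete (Pi 2) (D π fun s => coin.real s = r)) ∧
    -- reals with a computable, `Σ⁰₁` or `Π⁰₁` digit set, or a digit set which is a difference
    -- of two `Π⁰₁` sets, are such thresholds
    (∀ A : Set ℕ, (REPred (fun i => i ∈ A) ∨ REPred fun i => i ∉ A) →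
      ∃ n, D π (fun s => coin.real s = ∑' i, A.indicator (fun i => (1 / 2 : ℝ) ^ (i + 1)) i) n) ∧
    (∀ A B : Set ℕ, Pi 1 (fun i : ℕ => i ∈ A) → Pi 1 (fun i : ℕ => i ∈ B) →
      ∃ n, D π (fun s => coin.real s =
        ∑' i, (A \ B).indicator (fun i => (1 / 2 : ℝ) ^ (i + 1)) i) n) ∧
    -- measure: all other thresholds
    (∀ r : ℝ, (¬ ∃ n, D π (fun s => coin.real s = r) n) →
      (∀ n, ¬ D π (fun s => coin.real s = r) n) ∧
      (∀ n, D π (fun s => r ≤ coin.real s) n ↔ D π (fun s => r < coin.real s) n) ∧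
      (∀ n, D π (fun s => coin.real s ≤ r) n ↔ D π (fun s => coin.real s < r) n)) ∧
    -- measure: exact position, relative to the cuts of an arbitrary threshold
    (∀ (r : ℝ) (n : ℕ), 0 ≤ r → r < 1 → 2 ≤ n → (Sig n (D π fun s => r < coin.real s) ↔
      Sig n fun p : ℕ × ℕ => r < (p.1 : ℝ) / 2 ^ p.2)) ∧
    (∀ (r : ℝ) (n : ℕ), 0 < r → r ≤ 1 → 2 ≤ n → (Sig n (D π fun s => coin.real s < r) ↔
      Sig n fun p : ℕ × ℕ => (p.1 : ℝ) / 2 ^ p.2 < r)) := by
  refine ⟨⟨stdEnum, stdEnum_eff⟩, fun π hπ => ?_⟩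
  have hdig : ∀ A B : Set ℕ, Pi 1 (fun i : ℕ => i ∈ A) → Pi 1 (fun i : ℕ => i ∈ B) →
      ∃ n, D π (fun s => coin.real s =
        ∑' i, (A \ B).indicator (fun i => (1 / 2 : ℝ) ^ (i + 1)) i) n :=
    fun A B hA hB => digits_attained hπ hA hB
  refine ⟨card_finite hπ, card_infinite hπ, fun r hr => meas_attained hπ hr, ?_, hdig,
    fun r hr => ⟨fun n => (meas_not_attained hr n).1, fun n => (meas_not_attained hr n).2.1,
      fun n => (meas_not_attained hr n).2.2⟩,
    fun r n h0 h1 hn => meas_gt_iff hπ h0 h1 hn, fun r n _ h1 hn => meas_lt_iff' hπ h1 hn⟩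
  rintro A (hA | hA)
  · have h := hdig Set.univ Aᶜ ?_ ?_
    · rw [Set.sdiff_compl, Set.univ_inter] at h
      exact h
    · refine pi_one.2 ((Pool.Agent.Helper446.RE.const False).of_eq fun i => ?_)
      simp
    · refine pi_one.2 (hA.of_eq fun i => ?_)
      simp
  · have h := hdig A ∅ (pi_one.2 hA) ?_
    · rw [Set.sdiff_empty] at h
      exact h
    · refine pi_one.2 ((Pool.Agent.Helper446.RE.const True).of_eq fun i => ?_)
      simp

end Pool.Agent.Results.MP_02df5b_lc.AllSizeProperties
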